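import Mathlib
import Pool.Agent.Helper61.Lacunary.Defs

/-!
# Project LM (MP_cb927e_an): lacunary maximal operators along curves with few flat points

Definitions and interface statements. Every statement `St...` is a `Prop` which is proved in a
module of its own; the assembly is in `Pool.Agent.Helper68.LM.Asm`.
-/

set_option autoImplicit false

open MeasureTheory Set Filter Topology
open scoped ENNReal RealInnerProductSpace FourierTransform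

namespace Pool.Agent.Helper68.LM

/-- the Euclidean plane -/
abbrev Pl : Type := Pool.Agent.Helper61.Lacunary.Plane

/-- bounded measurable functions with bounded support -/
def BB (g : Pl → ℝ) : Prop :=
  Measurable g ∧ ∃ K : ℝ, (∀ x, |g x| ≤ K) ∧ ∀ x, K < ‖x‖ → g x = 0

/-- `ν` is concentrated on the ball of radius `R`, and has mass at most `L` -/
def Bd (R L : ℝ) (ν : Measure Pl) : Prop :=
  ν (Metric.closedBall 0 R)ᶜ = 0 ∧ ν univ ≤ ENNReal.ofReal L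

/-- the average of `g` with respect to the dilate by `t` of the measure `ν` -/
noncomputable def Av (ν : Measure Pl) (t : ℝ) (g : Pl → ℝ) (x : Pl) : ℝ :=
  ∫ y, g (x - t • y) ∂ν

/-- the bump function, of integral one -/
noncomputable def ph (x : Pl) : ℝ := (∫ z : Pl, max 0 (1 - ‖z‖))⁻¹ * max 0 (1 - ‖x‖)

/-- smoothing at scale `s` -/
noncomputable def Sm (s : ℝ) (g : Pl → ℝ) (x : Pl) : ℝ := ∫ z : Pl, ph z * g (x - s • z)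

/-- `D_k` for the pair of scales `2^(k-a)`, `2^(k-b)` -/
noncomputable def Dk (ν : Measure Pl) (a b : ℕ) (k : ℤ) (g : Pl → ℝ) : Pl → ℝ :=
  Av ν ((2 : ℝ) ^ k) (fun x => Sm ((2 : ℝ) ^ (k - (a : ℤ))) g x - Sm ((2 : ℝ) ^ (k - (b : ℤ))) g x)

/-- `E_k g = A_k (g - S_{2^k} g)` -/
noncomputable def Ek (ν : Measure Pl) (k : ℤ) (g : Pl → ℝ) : Pl → ℝ :=
  Av ν ((2 : ℝ) ^ k) (fun x => g x - Sm ((2 : ℝ) ^ k) g x)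

/-- the dyadic Hardy-Littlewood maximal function -/
noncomputable def HL (ρ : ℝ) (g : Pl → ℝ) (x : Pl) : ℝ≥0∞ :=
  ⨆ k : ℤ, ∫⁻ w in Metric.closedBall (0 : Pl) ρ, ‖g (x - (2 : ℝ) ^ k • w)‖ₑ

/-- Fourier transform of a real function -/
noncomputable def ft (g : Pl → ℝ) (ξ : Pl) : ℂ := 𝓕 (fun x => (g x : ℂ)) ξ

/-- Fourier transform of a measure -/
noncomputable def fm (ν : Measure Pl) (ξ : Pl) : ℂ :=
  ∫ y, Complex.exp (((-2 * Real.pi * ⟪y, ξ⟫ : ℝ) : ℂ) * Complex.I) ∂ν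

/-- decay of the Fourier transform beyond the frequency `2^N` -/
def Dec (L : ℝ) (N : ℕ) (ν : Measure Pl) : Prop :=
  ∀ ξ : Pl, ξ ≠ 0 → ‖fm ν ξ‖ ≤ L * Real.sqrt (2 ^ N / ‖ξ‖)

/-! ## Elementary facts -/

/-- PH (about 80 lines).  `J = ∫ max 0 (1-‖z‖) > 0` (continuous, compact support, nonnegative, value one at `0`:
`Continuous.integral_pos_of_hasCompactSupport_nonneg_nonzero` or restrict to a small ball).  Everything follows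
with `C = J⁻¹` (`|max 0 (1-‖x‖) - max 0 (1-‖y‖)| ≤ ‖x-y‖`).  Hypotheses: none. -/
def StPH : Prop :=
  Continuous ph ∧ (∀ x, 0 ≤ ph x) ∧ (∀ x, 1 ≤ ‖x‖ → ph x = 0) ∧ (∫ x, ph x = 1) ∧
    Integrable ph ∧ ∃ C : ℝ, 0 < C ∧ (∀ x, ph x ≤ C) ∧ ∀ x y, |ph x - ph y| ≤ C * ‖x - y‖

/-- BBC (about 150 lines).  Measurability: `StronglyMeasurable.integral_prod_right` for
`(x,y) ↦ g (x - t • y)` and the product with `ph z`.  `|Sm s g| ≤ K`: `norm_integral_le_integral_norm` and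
`integral_mono_of_nonneg` with `ph z * K` (no measurability of `g` needed), `∫ ph = 1`.  `|Av| ≤ K ν(univ)`
(`K ≥ 0`).  Supports: `Sm s g x = 0` for `‖x‖ > K + |s|` (`ph z = 0` unless `‖z‖ < 1`), `Av ν t g x = 0` for
`‖x‖ > K + t |R|` (`ν`-a.e. `‖y‖ ≤ R`).  Additivity: `integral_add`, all integrands are bounded, measurable and
the measures `ν`, `ph z dz` are finite (`Bd` gives `IsFiniteMeasure ν`).  Hypotheses: hPH. -/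
def StBBC : Prop :=
  (∀ g h : Pl → ℝ, BB g → BB h → BB (fun x => g x - h x)) ∧
  (∀ (g : Pl → ℝ) (s : ℝ), BB g → BB (Sm s g)) ∧
  (∀ (ν : Measure Pl) (R L t : ℝ) (g : Pl → ℝ), Bd R L ν → 0 ≤ t → BB g → BB (Av ν t g)) ∧
  (∀ (g : Pl → ℝ) (K s : ℝ), (∀ x, |g x| ≤ K) → ∀ x, |Sm s g x| ≤ K) ∧
  (∀ (ν : Measure Pl) (R L t : ℝ) (g : Pl → ℝ) (K : ℝ), Bd R L ν → 0 ≤ L → (∀ x, |g x| ≤ K) →
    ∀ x, |Av ν t g x| ≤ L * K) ∧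
  (∀ (g h : Pl → ℝ) (s : ℝ) (x : Pl), BB g → BB h →
    Sm s (fun y => g y + h y) x = Sm s g x + Sm s h x) ∧
  (∀ (ν : Measure Pl) (R L t : ℝ) (g h : Pl → ℝ) (x : Pl), Bd R L ν → BB g → BB h →
    Av ν t (fun y => g y + h y) x = Av ν t g x + Av ν t h x)

/-! ## Interpolation -/

/-- LC (about 50 lines), layer cake.  `F(x)^p = ∫⁻ lam in Ioi 0, 1_{ofReal lam < F x} ofReal (p lam^(p-1))`
(for `F x = ∞` both sides are infinite, else `∫_0^a p lam^(p-1) = a^p`), then Tonelli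
(`lintegral_lintegral_swap`; the set `{(x,lam) | ofReal lam < F x}` is measurable).  Mathlib has the real valued
form `lintegral_rpow_eq_lintegral_meas_lt_mul`.  Hypotheses: none. -/
def StLC : Prop :=
  ∀ p : ℝ, 0 < p → ∀ F : Pl → ℝ≥0∞, Measurable F →
    ∫⁻ x, F x ^ p = ∫⁻ lam in Ioi (0 : ℝ), ENNReal.ofReal (p * lam ^ (p - 1)) *
      volume {x | ENNReal.ofReal lam < F x}

/-- MZ1 (about 90 lines).  By LC `∫ F^p ≤ ∫_0^∞ p lam^(p-1) (K/lam) ∫_{s lam < g} g dx dlam`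
`= K p ∫ g (∫_0^{g/s} lam^(p-2) dlam) dx = K p/(p-1) s^(1-p) ∫ g^p` (Tonelli).  `C = p/(p-1)`.
Hypotheses: hLC. -/
def StMZ1 : Prop :=
  ∀ p : ℝ, 1 < p → ∃ C : ℝ, 0 < C ∧ ∀ (g : Pl → ℝ) (F : Pl → ℝ≥0∞) (s K : ℝ), Measurable g →
    (∀ x, 0 ≤ g x) → Measurable F → 0 < s → 0 ≤ K →
    (∀ lam : ℝ, 0 < lam → volume {x | ENNReal.ofReal lam < F x} ≤
      ENNReal.ofReal (K / lam) * ∫⁻ x in {x | s * lam < g x}, ENNReal.ofReal (g x)) →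
    ∫⁻ x, F x ^ p ≤ ENNReal.ofReal (C * (K * s ^ (1 - p))) * ∫⁻ x, ENNReal.ofReal (g x) ^ p

/-- MZ2 (about 90 lines).  As MZ1: `∫ F^p ≤ K p ∫ g^2 (∫_0^{g/s} lam^(p-3) dlam) dx = K p/(p-2) s^(2-p) ∫ g^p`.
`C = p/(p-2)`.  Hypotheses: hLC. -/
def StMZ2 : Prop :=
  ∀ p : ℝ, 2 < p → ∃ C : ℝ, 0 < C ∧ ∀ (g : Pl → ℝ) (F : Pl → ℝ≥0∞) (s K : ℝ), Measurable g →
    (∀ x, 0 ≤ g x) → Measurable F → 0 < s → 0 ≤ K →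
    (∀ lam : ℝ, 0 < lam → volume {x | ENNReal.ofReal lam < F x} ≤
      ENNReal.ofReal (K / lam ^ 2) * ∫⁻ x in {x | s * lam < g x}, ENNReal.ofReal (g x) ^ 2) →
    ∫⁻ x, F x ^ p ≤ ENNReal.ofReal (C * (K * s ^ (2 - p))) * ∫⁻ x, ENNReal.ofReal (g x) ^ p

/-- MZ3 (about 140 lines).  First term as in MZ1.  Second term: by Tonelli
`K₂ p ∫ (∫_0^∞ lam^(p-3) min(g, s lam)^2 dlam) dx`, and
`∫_0^{g/s} lam^(p-3) s^2 lam^2 dlam + ∫_{g/s}^∞ lam^(p-3) g^2 dlam = (1/p + 1/(2-p)) s^(2-p) g^p`.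
`C = p/(p-1) + p (1/p + 1/(2-p))`.  Hypotheses: hLC. -/
def StMZ3 : Prop :=
  ∀ p : ℝ, 1 < p → p < 2 → ∃ C : ℝ, 0 < C ∧ ∀ (g : Pl → ℝ) (F : Pl → ℝ≥0∞) (s K₁ K₂ : ℝ),
    Measurable g → (∀ x, 0 ≤ g x) → Measurable F → 0 < s → 0 ≤ K₁ → 0 ≤ K₂ →
    (∀ lam : ℝ, 0 < lam → volume {x | ENNReal.ofReal lam < F x} ≤
      ENNReal.ofReal (K₁ / lam) * (∫⁻ x in {x | s * lam < g x}, ENNReal.ofReal (g x)) +
      ENNReal.ofReal (K₂ / lam ^ 2) * ∫⁻ x, ENNReal.ofReal (min (g x) (s * lam)) ^ 2) →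
    ∫⁻ x, F x ^ p ≤
      ENNReal.ofReal (C * (K₁ * s ^ (1 - p) + K₂ * s ^ (2 - p))) * ∫⁻ x, ENNReal.ofReal (g x) ^ p

/-! ## Hardy-Littlewood -/

/-- HLW (about 150 lines).  We may assume `∫⁻ ‖g‖ₑ ≠ 0`; it is finite.  If `lam < HL ρ g x` there is `k` with
`lam < ∫_{‖w‖ ≤ ρ} |g (x - 2^k w)| dw = 4^(-k) ∫_{closedBall x (ρ 2^k)} |g|` (scaling, dimension 2), so
`lam 4^k < ∫_{closedBall x (ρ 2^k)} |g| ≤ ‖g‖_1`; the radii are bounded.  Vitali's covering theorem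
(`Vitali.exists_disjoint_subfamily_covering_enlargement_closedBall` with enlargement `5`) gives a disjoint
subfamily `B_i = closedBall x_i r_i`, `r_i = ρ 2^(k_i)`, countable (disjoint balls of positive radius), with
`vol {..} ≤ ∑ vol (closedBall x_i (5 r_i)) = ∑ C' r_i^2 ≤ (C' ρ^2/lam) ∑ ∫_{B_i} |g| ≤ (C/lam) ‖g‖_1`.
Hypotheses: none. -/
def StHLW : Prop :=
  ∀ ρ : ℝ, 0 < ρ → ∃ C : ℝ, 0 < C ∧ ∀ (g : Pl → ℝ), BB g → ∀ lam : ℝ, 0 < lam →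
    volume {x | ENNReal.ofReal lam < HL ρ g x} ≤ ENNReal.ofReal (C / lam) * ∫⁻ x, ‖g x‖ₑ

/-- HLS (about 120 lines).  Measurability: countable supremum of measurable functions.  Put
`V = (vol (closedBall 0 ρ)).toReal + 1`, `c = lam/(2V)`, `g = g₁ + g₂`, `g₁ = g 1_{g ≤ c}`, `g₂ = g 1_{g > c}`
(both `BB`).  `HL g ≤ HL g₁ + HL g₂` and `HL g₁ ≤ c V = lam/2`, so `{lam < HL g} ⊆ {lam/2 < HL g₂}` has measure
`≤ (2C/lam) ∫_{g > c} g` by HLW.  Apply MZ1 with `s = 1/(2V)`, `K = 2C`.  Hypotheses: hHLW, hMZ1. -/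
def StHLS : Prop :=
  (∀ (ρ : ℝ) (g : Pl → ℝ), BB g → Measurable (HL ρ g)) ∧
  ∀ ρ : ℝ, 0 < ρ → ∀ p : ℝ, 1 < p → ∃ C : ℝ, 0 < C ∧ ∀ (g : Pl → ℝ), BB g → (∀ x, 0 ≤ g x) →
    ∫⁻ x, HL ρ g x ^ p ≤ ENNReal.ofReal C * ∫⁻ x, ENNReal.ofReal (g x) ^ p

/-- HLD (about 90 lines).  `A_{2^k} S_{2^k} g (x) = ∫∫ ph z g(x - 2^k (y + z)) dz dν(y)`; `ph ≤ C₀`, `ph z = 0` for
`‖z‖ ≥ 1`, and `ν`-a.e. `‖y‖ ≤ R`, so (translation `w = y + z`, `‖w‖ ≤ R + 1`) it is at most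
`C₀ ∫ dν(y) ∫_{‖w‖ ≤ R+1} g(x - 2^k w) dw ≤ C₀ L HL (R+1) g x`.  Hypotheses: hPH, hBBC. -/
def StHLD : Prop :=
  ∀ R : ℝ, 0 < R → ∃ C : ℝ, 0 < C ∧ ∀ (ν : Measure Pl) (L : ℝ), Bd R L ν → 0 < L →
    ∀ (g : Pl → ℝ), BB g → (∀ x, 0 ≤ g x) → ∀ (k : ℤ) (x : Pl),
      ENNReal.ofReal (Av ν ((2 : ℝ) ^ k) (Sm ((2 : ℝ) ^ k) g) x) ≤
        ENNReal.ofReal (C * L) * HL (R + 1) g x

/-! ## The `L^2` theory -/

/-- PL (about 50 lines).  `h = fun x => (g x : ℂ)` is integrable and in `L^2` (bounded, bounded support).  Use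
`Wav.fourier_toLp` (Pool.Agent.Helper67.Wav.Four: the `L²` Fourier transform of `h` is `𝓕 h` a.e., for
`EuclideanSpace ℝ (Fin n)`) and `MeasureTheory.Lp.norm_fourier_eq`, as in the proof of `Helper72.BA.P.plancherel`
(Pool.Agent.Helper72.BAM.FB2).  `ft g` is continuous.  Hypotheses: none. -/
def StPL : Prop :=
  ∀ g : Pl → ℝ, BB g → Measurable (ft g) ∧ ∫⁻ ξ, ‖ft g ξ‖ₑ ^ 2 = ∫⁻ x, ‖g x‖ₑ ^ 2

/-- FA (about 80 lines).  Fubini on `volume × ν` (the integrand is bounded by `|g (x - t y)|`, integrable) and the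
translation `x ↦ x + t y`: `∫ e^{-2πi⟪x,ξ⟫} ∫ g(x-ty) dν(y) dx = ∫ e^{-2πi⟪ty,ξ⟫} dν(y) ∫ e^{-2πi⟪x,ξ⟫} g(x) dx`.
`Real.fourier_eq'` unfolds `𝓕`.  Hypotheses: none. -/
def StFA : Prop :=
  ∀ (ν : Measure Pl) (R L t : ℝ) (g : Pl → ℝ), Bd R L ν → 0 < t → BB g →
    ∀ ξ : Pl, ft (Av ν t g) ξ = fm ν (t • ξ) * ft g ξ

/-- FS (about 100 lines).  As FA with `ph z dz` instead of `ν` (`e^{-2πi⟪sz,ξ⟫} = e^{-2πi⟪z,sξ⟫}`).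
`‖ft ph ξ‖ ≤ ∫ ph = 1`; `‖1 - ft ph ξ‖ ≤ ∫ |1 - e^{-2πi⟪z,ξ⟫}| ph z ≤ 2π ‖ξ‖ ∫ ‖z‖ ph z ≤ 2π ‖ξ‖`
(`Complex.norm_exp_I_mul_ofReal_sub_one_le` or similar; `ph z = 0` for `‖z‖ ≥ 1`).  Linearity: `integral_sub`.
Hypotheses: hPH. -/
def StFS : Prop :=
  (∀ (s : ℝ) (g : Pl → ℝ), 0 < s → BB g → ∀ ξ : Pl, ft (Sm s g) ξ = ft ph (s • ξ) * ft g ξ) ∧
  (∀ ξ : Pl, ‖ft ph ξ‖ ≤ 1) ∧ (∀ ξ : Pl, ‖1 - ft ph ξ‖ ≤ 2 * Real.pi * ‖ξ‖) ∧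
  (∀ g h : Pl → ℝ, BB g → BB h → ∀ ξ : Pl, ft (fun x => g x - h x) ξ = ft g ξ - ft h ξ)

/-- NUM (about 150 lines).  Choose `m : ℤ` with `2^m ≤ r < 2^(m+1)` and shift `k` by `m`
(`Equiv.addRight m`, `Equiv.tsum_eq`): the terms are at most `q(k) = min 1 (2^(N-k)) min 4 (64 π² 4^(k-n+1))`.
If `n = 0`: `∑_{k ≤ 0} 256 π² 4^k + ∑_{0 < k ≤ N} 4 + ∑_{k > N} 4·2^(N-k) ≤ C (N+1)`.  If `N ≤ n`:
`∑_{k ≤ n} 256 π² 4^(k-n) 2^(N-k) = 256 π² 2^(N-n) ∑_{k≤n} 2^(k-n)` and `∑_{k > n} 4·2^(N-k) = 4·2^(N-n)`.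
Hypotheses: none. -/
def StNUM : Prop :=
  ∃ C : ℝ, 0 < C ∧ ∀ (N n : ℕ) (r : ℝ), 0 < r →
    (n = 0 → ∑' k : ℤ, ENNReal.ofReal (min 1 (2 ^ N / ((2 : ℝ) ^ k * r)) *
      min 4 ((4 * Real.pi * ((2 : ℝ) ^ (k - (n : ℤ)) * r)) ^ 2)) ≤ ENNReal.ofReal (C * (N + 1))) ∧
    (N ≤ n → ∑' k : ℤ, ENNReal.ofReal (min 1 (2 ^ N / ((2 : ℝ) ^ k * r)) *
      min 4 ((4 * Real.pi * ((2 : ℝ) ^ (k - (n : ℤ)) * r)) ^ 2)) ≤
        ENNReal.ofReal (C * (2 : ℝ) ^ ((N : ℤ) - n)))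

/-- L2E (about 130 lines).  `Ek ν k g` is `BB` and `ft (Ek ν k g) ξ = fm ν (2^k ξ) (1 - ft ph (2^k ξ)) ft g ξ` (FA, FS).
Plancherel, `lintegral_tsum`, and for `ξ ≠ 0`, `η = 2^k ξ`: `‖fm ν η‖ ≤ L` (mass) and Dec give
`‖fm ν η‖² ≤ L² min 1 (2^N/‖η‖)`, `‖1 - ft ph η‖² ≤ min 4 ((4π ‖η‖)²)`.  Sum over `k` with NUM, `n = 0`, `r = ‖ξ‖`.
Hypotheses: hBBC, hPL, hFA, hFS, hNUM. -/
def StL2E : Prop :=
  ∃ C : ℝ, 0 < C ∧ ∀ (ν : Measure Pl) (R L : ℝ) (N : ℕ), Bd R L ν → 0 < L → Dec L N ν →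
    ∀ g : Pl → ℝ, BB g →
      ∑' k : ℤ, ∫⁻ x, ‖Ek ν k g x‖ₑ ^ 2 ≤ ENNReal.ofReal (C * L ^ 2 * (N + 1)) * ∫⁻ x, ‖g x‖ₑ ^ 2

/-- L2D (about 130 lines).  As L2E: `ft (Dk ν a b k g) ξ = fm ν (2^k ξ) (ft ph (2^(k-a) ξ) - ft ph (2^(k-b) ξ)) ft g ξ`,
`‖ft ph (2^(k-a) ξ) - ft ph (2^(k-b) ξ)‖² ≤ min 4 ((4π 2^(k-b) ‖ξ‖)²)` since `b ≤ a`; NUM with `n = b`.
Hypotheses: hBBC, hPL, hFA, hFS, hNUM. -/
def StL2D : Prop :=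
  ∃ C : ℝ, 0 < C ∧ ∀ (ν : Measure Pl) (R L : ℝ) (N : ℕ), Bd R L ν → 0 < L → Dec L N ν →
    ∀ (a b : ℕ), b ≤ a → ∀ g : Pl → ℝ, BB g →
      (b = 0 → ∑' k : ℤ, ∫⁻ x, ‖Dk ν a b k g x‖ₑ ^ 2 ≤
        ENNReal.ofReal (C * L ^ 2 * (N + 1)) * ∫⁻ x, ‖g x‖ₑ ^ 2) ∧
      (N ≤ b → ∑' k : ℤ, ∫⁻ x, ‖Dk ν a b k g x‖ₑ ^ 2 ≤
        ENNReal.ofReal (C * L ^ 2 * (2 : ℝ) ^ ((N : ℤ) - b)) * ∫⁻ x, ‖g x‖ₑ ^ 2)

/-! ## Calderon-Zygmund theory -/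

/-- the half open dyadic square of side `2^j` which contains `x` -/
def DQ (j : ℤ) (x : Pl) : Set Pl := {z | ∀ i, ⌊z i / (2 : ℝ) ^ j⌋ = ⌊x i / (2 : ℝ) ^ j⌋}

/-- LD (about 120 lines), dyadic differentiation.  For a bounded measurable `g` with bounded support and almost every
`x`, the averages over the half open dyadic squares of side `2^(-j)` containing `x` tend to `g x`.  Transfer to
`Fin 2 → ℝ` with the supremum norm, where a closed dyadic square is a closed ball `closedBall w (2^(-j)/2)`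
containing `x`, and use `IsUnifLocDoublingMeasure.ae_tendsto_average` with `K = 1` (half open and closed squares
differ by a null set).  Hypotheses: none. -/
def StLD : Prop :=
  (∀ (j : ℤ) (x : Pl), MeasurableSet (DQ j x) ∧ volume (DQ j x) = ENNReal.ofReal ((4 : ℝ) ^ j)) ∧
  ∀ g : Pl → ℝ, BB g → ∀ᵐ x : Pl,
    Tendsto (fun j : ℕ => ((4 : ℝ) ^ (-(j : ℤ)))⁻¹ * ∫ z in DQ (-(j : ℤ)) x, g z) atTop (𝓝 (g x))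

/-- CZ (about 250 lines).  `E_j(x)` = average of `g` over `DQ j x` (area `4^j`).  For `j` large `E_j ≤ 4^(-j) ∫ g < lam`.  Let
`U = {x | ∃ j, lam < E_j(x)}`, and for `x ∈ U` let `j(x)` be the largest such `j`; the squares `DQ (j x) x`, `x ∈ U`,
are pairwise disjoint or equal (nested family), countably many; enumerate them as `Q_i` with centres `c_i`, side
`2^(j_i)`, `r_i = 2^(j_i)` (so `Q_i ⊆ closedBall (c_i) (r_i)`); dummy indices get `b_i = 0`, `r_i = 0`.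
`G = E_{j(x)}(x)` on `U` (at most `4 lam` since the parent has average `≤ lam`), `G = min (g x) lam` off `U`;
off `U` `g ≤ lam` a.e. by LD.  `b_i = (g - average over Q_i) 1_{Q_i}`.  `∫ |b_i| ≤ 2 ∫_{Q_i} g`,
`vol (closedBall c_i (2 r_i)) = 4π 4^(j_i) ≤ (4π/lam) ∫_{Q_i} g`.  Hypotheses: hLD. -/
def StCZ : Prop :=
  ∃ C : ℝ, 0 < C ∧ ∀ (g : Pl → ℝ), BB g → (∀ x, 0 ≤ g x) → ∀ lam : ℝ, 0 < lam →
    ∃ (G : Pl → ℝ) (b : ℕ → Pl → ℝ) (c : ℕ → Pl) (r : ℕ → ℝ),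
      BB G ∧ (∀ x, 0 ≤ G x ∧ G x ≤ 4 * lam) ∧ (∫⁻ x, ‖G x‖ₑ ≤ ∫⁻ x, ‖g x‖ₑ) ∧
      (∀ i, BB (b i) ∧ 0 ≤ r i ∧ (0 < r i ∨ ∀ x, b i x = 0) ∧
        (∀ x, r i < ‖x - c i‖ → b i x = 0) ∧ ∫ x, b i x = 0) ∧
      (∀ i j, i ≠ j → ∀ x, b i x = 0 ∨ b j x = 0) ∧
      (∃ K : ℝ, ∀ i x, |b i x| ≤ K) ∧
      (∀ᵐ x, ((∀ i, b i x = 0) ∧ g x = G x) ∨
        ∃ i, (g x = G x + b i x ∧ ∀ j, j ≠ i → b j x = 0)) ∧
      (∑' i, ∫⁻ x, ‖b i x‖ₑ ≤ 2 * ∫⁻ x, ‖g x‖ₑ) ∧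
      (∑' i, volume (Metric.closedBall (c i) (2 * r i)) ≤
        ENNReal.ofReal (C / lam) * ∫⁻ x, ‖g x‖ₑ)

/-- HO1 (about 200 lines).  If `t (R+1) ≤ r` and `‖x - c‖ > 2r`: the integrand `ph z g(x - t y - s z)` vanishes for
`ν`-a.e. `y` and all `z` (`‖t y + s z‖ ≤ t (R+1) ≤ r`).  Otherwise the bound `2L` (even `L`) is trivial (Fubini), and with
`k_s(w) = s^(-2) ph(w/s)`: `Sm s g x = ∫ k_s(x - z) g(z) dz = ∫ (k_s(x - z) - k_s(x - c)) g(z) dz` (mean zero), so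
`∫ |Av ν t (Sm s g)| ≤ L ∫ |g(z)| ∫ |k_s(x - z) - k_s(x - c)| dx dz`, and for `‖z - c‖ ≤ r` the inner integral is at
most `s^(-2) C₀ (r/s) 2 vol(ball of radius s) = C r/s` (Lipschitz bound of `ph`, supports).  Hypotheses: hPH, hBBC. -/
def StHO1 : Prop :=
  ∀ R : ℝ, 0 < R → ∃ C : ℝ, 0 < C ∧ ∀ (ν : Measure Pl) (L : ℝ), Bd R L ν → 0 < L →
    ∀ (g : Pl → ℝ) (c : Pl) (r s t : ℝ), BB g → 0 < r → 0 < s → s ≤ t →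
      (∀ x, r < ‖x - c‖ → g x = 0) → ∫ x, g x = 0 →
      ∫⁻ x in (Metric.closedBall c (2 * r))ᶜ, ‖Av ν t (Sm s g) x‖ₑ ≤
        (if t * (R + 1) ≤ r then 0 else ENNReal.ofReal (L * min 2 (C * r / s))) * ∫⁻ x, ‖g x‖ₑ

/-- HO (about 120 lines).  `Dk ν a b k g = Av (Sm (2^(k-a)) g) - Av (Sm (2^(k-b)) g)`; HO1 with `t = 2^k` and `s = 2^(k-a)`,
`2^(k-b)`: the sum is at most `L ∑_{k : 2^k (R+1) > r} (min 2 (C r 2^(a-k)) + min 2 (C r 2^(b-k)))`.  At most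
`a + 1 + log₂(R+1) + 1` values of `k` have `r/(R+1) < 2^k ≤ r 2^a`, the rest is a geometric series.
Hypotheses: hBBC, hHO1. -/
def StHO : Prop :=
  ∀ R : ℝ, 0 < R → ∃ C : ℝ, 0 < C ∧ ∀ (ν : Measure Pl) (L : ℝ), Bd R L ν → 0 < L →
    ∀ (g : Pl → ℝ) (c : Pl) (r : ℝ) (a b : ℕ), BB g → 0 < r → b ≤ a →
      (∀ x, r < ‖x - c‖ → g x = 0) → ∫ x, g x = 0 →
      ∑' k : ℤ, ∫⁻ x in (Metric.closedBall c (2 * r))ᶜ, ‖Dk ν a b k g x‖ₑ ≤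
        ENNReal.ofReal (C * L * (a + 1)) * ∫⁻ x, ‖g x‖ₑ

/-- W11 (about 250 lines).  CZ decomposition at height `μ = lam/A`: `g = G + ∑ b_i` a.e.; `h = g - G` is `BB` and the
finite sums `∑_{i<m} b_i` tend to `h` a.e. and are uniformly bounded, so `Dk` of them tends to `Dk h` at every point
(dominated convergence, twice; `Sm s` only depends on the a.e. class) and
`⨆_k ‖Dk h x‖ₑ ≤ ∑_i ∑_k ‖Dk b_i x‖ₑ`.  (1) `vol {lam/2 < sup ‖Dk G‖} ≤ (4/lam²) A² ∫ G² ≤ 16 A²μ/lam² ∫ g = 16 (A/lam) ∫ g`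
(Chebyshev, `sup² ≤ ∑`).  (2) `U* = ⋃ closedBall c_i (2r_i)`: `vol U* ≤ (C/μ) ∫ g = C (A/lam) ∫ g`.  (3) off `U*`,
Chebyshev and HO: `(2/lam) ∑_i C L (a+1) ∫ |b_i| ≤ 4 C L (a+1)/lam ∫ g`.  Hypotheses: hBBC, hCZ, hHO. -/
def StW11 : Prop :=
  ∀ R : ℝ, 0 < R → ∃ C : ℝ, 0 < C ∧ ∀ (ν : Measure Pl) (L A : ℝ) (a b : ℕ), Bd R L ν → 0 < L →
    0 < A → b ≤ a →
    (∀ g : Pl → ℝ, BB g → ∑' k : ℤ, ∫⁻ x, ‖Dk ν a b k g x‖ₑ ^ 2 ≤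
      ENNReal.ofReal (A ^ 2) * ∫⁻ x, ‖g x‖ₑ ^ 2) →
    ∀ g : Pl → ℝ, BB g → (∀ x, 0 ≤ g x) → ∀ lam : ℝ, 0 < lam →
      volume {x | ENNReal.ofReal lam < ⨆ k : ℤ, ‖Dk ν a b k g x‖ₑ} ≤
        ENNReal.ofReal (C * (A + L * (a + 1)) / lam) * ∫⁻ x, ‖g x‖ₑ

/-- CONV (about 120 lines).  Lebesgue points: for a.e. `z`, `(1/vol B(z,s)) ∫_{B(z,s)} |g - g(z)| → 0`
(`IsUnifLocDoublingMeasure.ae_tendsto_average_norm_sub` or `Besicovitch.ae_tendsto_...`), hence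
`|Sm s g z - g z| ≤ ∫ ph w |g(z - s w) - g z| dw ≤ C (average) → 0` as `s → 0+`.  By Fubini for a.e. `x`, for all `k`
(countable), `ν`-a.e. `y` is such that `x - 2^k y` is a good point; dominated convergence for `ν` (finite, bounded
integrands).  Hypotheses: hPH, hBBC. -/
def StCONV : Prop :=
  ∀ (ν : Measure Pl) (R L : ℝ), Bd R L ν → ∀ g : Pl → ℝ, BB g → ∀ᵐ x : Pl, ∀ k : ℤ,
    Tendsto (fun m : ℕ => Av ν ((2 : ℝ) ^ k) (Sm ((2 : ℝ) ^ (k - (m : ℤ))) g) x) atTop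
      (𝓝 (Av ν ((2 : ℝ) ^ k) g x))

/-- TD (about 150 lines).  Strong type of `T = ⨆ ‖Dk ν a b k g‖ₑ` for `1 < p < 2`: with `B = L (a+1)` and an `L²` bound `A`,
`A ≤ M B`.  `g₁ = min g c`... use `g₁ = g 1_{g ≤ c}`, `g₂ = g 1_{g > c}`, `c = s lam`: `vol {lam < T g} ≤`
`vol {lam/2 < T g₂} + vol {lam/2 < T g₁} ≤ (2 C (A + B)/lam) ∫_{g > c} g + (4 A²/lam²) ∫ min(g, c)²`.  MZ3 with
`s = B/A²` gives `C ((A + B) s^(1-p) + A² s^(2-p)) ≤ C' B^(2-p) A^(2(p-1))`.  Hypotheses: hBBC, hMZ3, hW11. -/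
def StTD : Prop :=
  ∀ p R M : ℝ, 1 < p → p < 2 → 0 < R → 0 < M → ∃ C : ℝ, 0 < C ∧ ∀ (ν : Measure Pl) (L A : ℝ)
    (a b : ℕ), Bd R L ν → 0 < L → 0 < A → A ≤ M * (L * (a + 1)) → b ≤ a →
    (∀ g : Pl → ℝ, BB g → ∑' k : ℤ, ∫⁻ x, ‖Dk ν a b k g x‖ₑ ^ 2 ≤
      ENNReal.ofReal (A ^ 2) * ∫⁻ x, ‖g x‖ₑ ^ 2) →
    ∀ g : Pl → ℝ, BB g → (∀ x, 0 ≤ g x) →
      ∫⁻ x, (⨆ k : ℤ, ‖Dk ν a b k g x‖ₑ) ^ p ≤
        ENNReal.ofReal (C * ((L * (a + 1)) ^ (2 - p) * (A ^ 2) ^ (p - 1))) *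
          ∫⁻ x, ENNReal.ofReal (g x) ^ p

/-! ## The maximal theorem -/

/-- PA (about 180 lines).  `A_k g = A_k S_{2^k} g + E_k g`, so the maximal function is at most
`C L HL (R+1) g + T g`, `T g = ⨆ ‖Ek ν k g‖ₑ`.  The first term by HLS, HLD.  For `p = 2` `∫ (T g)² ≤ ∑ ∫ ‖Ek‖² ≤ C L² (N+1) ∫ g²`
(L2E).  For `p > 2`: `g₁ = g 1_{g ≤ c}`, `g₂ = g 1_{g > c}`, `c = lam/(4L)`: `|Ek g₁| ≤ L c < lam/2` (`g₁ - S g₁ ∈ [-c, c]`),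
`{lam < T g} ⊆ {lam/2 < T g₂}` has measure `≤ (4/lam²) C L² (N+1) ∫_{g > c} g²`; MZ2 with `s = 1/(4L)`.  Minkowski
(`ENNReal.lintegral_Lp_add_le` or `(a+b)^p ≤ 2^(p-1) (a^p + b^p)`).  Hypotheses: hBBC, hMZ2, hHLS, hHLD, hL2E. -/
def StPA : Prop :=
  ∀ p R : ℝ, 2 ≤ p → 0 < R → ∃ C : ℝ, 0 < C ∧ ∀ (ν : Measure Pl) (L : ℝ) (N : ℕ), Bd R L ν →
    0 < L → Dec L N ν → ∀ g : Pl → ℝ, BB g → (∀ x, 0 ≤ g x) →
      ∫⁻ x, (⨆ k : ℤ, ENNReal.ofReal (Av ν ((2 : ℝ) ^ k) g x)) ^ p ≤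
        ENNReal.ofReal (C * L ^ p * (N + 1)) * ∫⁻ x, ENNReal.ofReal (g x) ^ p

/-- PB (about 250 lines).  By CONV, for a.e. `x` and all `k`, `A_k g(x) = lim_m A_k S_{2^(k-m)} g(x)`, and for `m > N`
`A_k S_{2^(k-m)} g = A_k S_{2^k} g + Dk N 0 + ∑_{n=N}^{m-1} Dk (n+1) n` (telescoping, additivity), so
`⨆_k A_k g ≤ C L HL + T_{N,0} g + ∑_{n ≥ N} T_{n+1,n} g` a.e. (if `N = 0` the middle term is `0`).  `L^p` norms: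
HLS/HLD give `C L`; TD with `A² = C L² (N+1)`, `a = N`, `b = 0` gives `∫ T_{N,0}^p ≤ C L^p (N+1)^(2-p) (N+1)^(p-1) ∫ g^p`;
TD with `A² = C L² 2^(N-n)`, `a = n+1`, `b = n` gives `∫ T_{n+1,n}^p ≤ C L^p (n+2)^(2-p) 2^(-(n-N)(p-1)) ∫ g^p`.  The sum of
the `p`-th roots over `n = N + m` is at most `C (N+1)^(1/p)` as `n + 2 ≤ 2 (N+1)(m+1)` and `2 - p ≤ 1`.  (`A ≤ M L (a+1)`
holds in both cases.)  Countable Minkowski inequality by monotone convergence from `ENNReal.lintegral_Lp_add_le`.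
Hypotheses: hBBC, hHLS, hHLD, hL2D, hCONV, hTD. -/
def StPB : Prop :=
  ∀ p R : ℝ, 1 < p → p < 2 → 0 < R → ∃ C : ℝ, 0 < C ∧ ∀ (ν : Measure Pl) (L : ℝ) (N : ℕ),
    Bd R L ν → 0 < L → Dec L N ν → ∀ g : Pl → ℝ, BB g → (∀ x, 0 ≤ g x) →
      ∫⁻ x, (⨆ k : ℤ, ENNReal.ofReal (Av ν ((2 : ℝ) ^ k) g x)) ^ p ≤
        ENNReal.ofReal (C * L ^ p * (N + 1)) * ∫⁻ x, ENNReal.ofReal (g x) ^ p

/-- HA (about 120 lines).  `f_n = min(f, n) 1_{‖x‖ ≤ n}` increases to `f`; `f_n = ofReal g_n` with `g_n` in `BB`, nonnegative, and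
`∫⁻ y, f_n (x - 2^k y) ∂ν = ofReal (Av ν (2^k) g_n x)`.  Use PA or PB for `g_n` and monotone convergence
(`lintegral_iSup`, suprema commute).  Hypotheses: hBBC, hPA, hPB. -/
def StHA : Prop :=
  ∀ p R : ℝ, 1 < p → 0 < R → ∃ C : ℝ, 0 < C ∧ ∀ (ν : Measure Pl) (L : ℝ) (N : ℕ), Bd R L ν →
    0 < L → Dec L N ν → ∀ f : Pl → ℝ≥0∞, Measurable f →
      ∫⁻ x, (⨆ k : ℤ, ∫⁻ y, f (x - (2 : ℝ) ^ k • y) ∂ν) ^ p ≤
        ENNReal.ofReal (C * L ^ p * (N + 1)) * ∫⁻ x, f x ^ p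

end Pool.Agent.Helper68.LM
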