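import Pool.Agent.Helper68.LM.St

/-!
# Project LM (MP_cb927e_an), module CZ: Calderon-Zygmund decomposition
-/

set_option autoImplicit false

open MeasureTheory Set Filter Topology
open scoped ENNReal

namespace Pool.Agent.Helper68.LM

namespace CZ

/-- the square of side `2^j` with index `m` -/
def sq (j : ℤ) (m : Fin 2 → ℤ) : Set Pl := {z | ∀ i, ⌊z i / (2 : ℝ) ^ j⌋ = m i}

/-- its corner -/
noncomputable def pt (j : ℤ) (m : Fin 2 → ℤ) : Pl :=
  (WithLp.equiv 2 (Fin 2 → ℝ)).symm fun i => (2 : ℝ) ^ j * m i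

/-- index of the square containing `x` -/
noncomputable def ix (j : ℤ) (x : Pl) : Fin 2 → ℤ := fun i => ⌊x i / (2 : ℝ) ^ j⌋

theorem DQ_eq (j : ℤ) (x : Pl) : DQ j x = sq j (ix j x) := rfl

theorem mem_sq_ix (j : ℤ) (x : Pl) : x ∈ sq j (ix j x) := fun _ => rfl

theorem sq_eq {j : ℤ} {m : Fin 2 → ℤ} {x : Pl} (h : x ∈ sq j m) : ix j x = m := by
  funext i; exact h i

theorem pt_mem (j : ℤ) (m : Fin 2 → ℤ) : pt j m ∈ sq j m := by
  intro i
  have h : (pt j m) i / (2 : ℝ) ^ j = m i := by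
    have : (pt j m) i = (2 : ℝ) ^ j * m i := rfl
    rw [this]
    have h2 : (2 : ℝ) ^ j ≠ 0 := by positivity
    field_simp
  rw [h, Int.floor_intCast]

theorem nested {j j' : ℤ} (h : j ≤ j') {x z : Pl} (hz : z ∈ DQ j x) : z ∈ DQ j' x := by
  intro i
  obtain ⟨n, hn⟩ : ∃ n : ℕ, j' = j + n := ⟨(j' - j).toNat, by omega⟩
  have key : ∀ y : ℝ, ⌊y / (2 : ℝ) ^ j'⌋ = ⌊y / (2 : ℝ) ^ j⌋ / (2 ^ n : ℤ) := by
    intro y
    have h1 : y / (2 : ℝ) ^ j' = (y / (2 : ℝ) ^ j) / ((2 ^ n : ℕ) : ℝ) := by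
      rw [hn, zpow_add₀ (by norm_num), zpow_natCast, div_div]
      push_cast
      rfl
    rw [h1, Int.floor_div_natCast]
    push_cast
    rfl
  rw [key, key, hz i]

theorem DQ_congr {j : ℤ} {x z : Pl} (hz : z ∈ DQ j x) : DQ j z = DQ j x := by
  rw [DQ_eq, DQ_eq, sq_eq (m := ix j x) hz]

theorem DQ_congr' {j j' : ℤ} (h : j ≤ j') {x z : Pl} (hz : z ∈ DQ j x) : DQ j' z = DQ j' x :=
  DQ_congr (nested h hz)

theorem dist_sq {j : ℤ} {m : Fin 2 → ℤ} {x z : Pl} (hx : x ∈ sq j m) (hz : z ∈ sq j m) :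
    ‖x - z‖ ≤ 2 * (2 : ℝ) ^ j := by
  have h2 : (0 : ℝ) < (2 : ℝ) ^ j := by positivity
  have hc : ∀ i, |(x - z) i| ≤ (2 : ℝ) ^ j := by
    intro i
    have h1 := Int.floor_eq_iff.1 (hx i)
    have h3 := Int.floor_eq_iff.1 (hz i)
    rw [le_div_iff₀ h2, div_lt_iff₀ h2] at h1 h3
    rw [PiLp.sub_apply, abs_le]
    constructor <;> nlinarith
  rw [EuclideanSpace.norm_eq, Fin.sum_univ_two]
  have h3 : ‖(x - z) 0‖ ^ 2 + ‖(x - z) 1‖ ^ 2 ≤ (2 * (2 : ℝ) ^ j) ^ 2 := by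
    have a := hc 0
    have b := hc 1
    rw [Real.norm_eq_abs, Real.norm_eq_abs]
    nlinarith [abs_nonneg ((x - z) 0), abs_nonneg ((x - z) 1)]
  calc Real.sqrt (‖(x - z) 0‖ ^ 2 + ‖(x - z) 1‖ ^ 2) ≤ Real.sqrt ((2 * (2 : ℝ) ^ j) ^ 2) :=
        Real.sqrt_le_sqrt h3
    _ = 2 * (2 : ℝ) ^ j := Real.sqrt_sq (by positivity)

/-- the average over the square `sq j m` -/
noncomputable def avg (g : Pl → ℝ) (q : ℤ × (Fin 2 → ℤ)) : ℝ :=
  ((4 : ℝ) ^ q.1)⁻¹ * ∫ z in sq q.1 q.2, g z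

/-- the average over the square of side `2^j` containing `x` -/
noncomputable def E (g : Pl → ℝ) (j : ℤ) (x : Pl) : ℝ := avg g (j, ix j x)

/-- the selected squares -/
def Sel (g : Pl → ℝ) (lam : ℝ) (q : ℤ × (Fin 2 → ℤ)) : Prop :=
  lam < avg g q ∧ ∀ j', q.1 < j' → E g j' (pt q.1 q.2) ≤ lam

variable {g : Pl → ℝ} {lam : ℝ}

theorem E_eq {j : ℤ} {m : Fin 2 → ℤ} {x : Pl} (hx : x ∈ sq j m) {j' : ℤ} (h : j ≤ j') :
    E g j' x = E g j' (pt j m) := by
  unfold E avg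
  have h1 : DQ j x = sq j m := by rw [DQ_eq, sq_eq hx]
  have h2 : pt j m ∈ DQ j x := by rw [h1]; exact pt_mem j m
  have h3 := DQ_congr' h h2
  rw [DQ_eq, DQ_eq] at h3
  simp only [h3]

theorem E_self {j : ℤ} {m : Fin 2 → ℤ} {x : Pl} (hx : x ∈ sq j m) : E g j x = avg g (j, m) := by
  unfold E
  rw [sq_eq hx]

theorem disj {q q' : ℤ × (Fin 2 → ℤ)} (hq : Sel g lam q) (hq' : Sel g lam q') {x : Pl}
    (hx : x ∈ sq q.1 q.2) (hx' : x ∈ sq q'.1 q'.2) : q = q' := by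
  have aux : ∀ q q' : ℤ × (Fin 2 → ℤ), Sel g lam q → Sel g lam q' → x ∈ sq q.1 q.2 →
      x ∈ sq q'.1 q'.2 → ¬ q.1 < q'.1 := by
    intro q q' hq hq' hx hx' hlt
    have h1 := hq.2 q'.1 hlt
    rw [← E_eq hx hlt.le, E_self hx'] at h1
    exact absurd hq'.1 (not_lt.2 h1)
  have h1 : q.1 = q'.1 :=
    le_antisymm (not_lt.1 (aux q' q hq' hq hx' hx)) (not_lt.1 (aux q q' hq hq' hx hx'))
  obtain ⟨j, m⟩ := q
  obtain ⟨j', m'⟩ := q'
  simp only at h1
  subst h1
  have h2 := sq_eq hx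
  have h3 := sq_eq hx'
  simp only at h2 h3
  rw [← h2, ← h3]

section

variable (hg : BB g) (h0 : ∀ x, 0 ≤ g x) (hl : 0 < lam)
  (hS : ∀ (j : ℤ) (x : Pl), MeasurableSet (DQ j x) ∧ volume (DQ j x) = ENNReal.ofReal ((4 : ℝ) ^ j))

include hg in
theorem intg : Integrable g := by
  obtain ⟨hm, K, hK, hK'⟩ := hg
  have h1 : Integrable (fun x => (Metric.closedBall (0 : Pl) K).indicator (fun _ => K) x) :=
    (integrable_indicator_iff Metric.isClosed_closedBall.measurableSet).2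
      (integrableOn_const measure_closedBall_lt_top.ne)
  refine h1.mono' hm.aestronglyMeasurable (ae_of_all _ fun x => ?_)
  by_cases hx : x ∈ Metric.closedBall (0 : Pl) K
  · rw [indicator_of_mem hx]; exact hK x
  · rw [indicator_of_notMem hx, hK' x (by simpa using hx), norm_zero]

include hS in
theorem meas_sq (q : ℤ × (Fin 2 → ℤ)) : MeasurableSet (sq q.1 q.2) := by
  have h := (hS q.1 (pt q.1 q.2)).1
  rwa [DQ_eq, sq_eq (pt_mem q.1 q.2)] at h

include hS in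
theorem vol_sq (q : ℤ × (Fin 2 → ℤ)) : volume (sq q.1 q.2) = ENNReal.ofReal ((4 : ℝ) ^ q.1) := by
  have h := (hS q.1 (pt q.1 q.2)).2
  rwa [DQ_eq, sq_eq (pt_mem q.1 q.2)] at h

include hg h0 in
theorem setint_le (q : ℤ × (Fin 2 → ℤ)) : ∫ z in sq q.1 q.2, g z ≤ ∫ z, g z :=
  setIntegral_le_integral (intg hg) (ae_of_all _ h0)

include h0 in
theorem avg_nonneg (q : ℤ × (Fin 2 → ℤ)) : 0 ≤ avg g q := by
  unfold avg
  have := integral_nonneg (μ := volume.restrict (sq q.1 q.2)) (f := g) (fun x => h0 x)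
  positivity

theorem four_mul_avg (q : ℤ × (Fin 2 → ℤ)) : (4 : ℝ) ^ q.1 * avg g q = ∫ z in sq q.1 q.2, g z := by
  unfold avg
  have : (4 : ℝ) ^ q.1 ≠ 0 := by positivity
  field_simp

include hg h0 in
/-- a parent has at least a quarter of the average -/
theorem avg_le_four (q : ℤ × (Fin 2 → ℤ)) : avg g q ≤ 4 * E g (q.1 + 1) (pt q.1 q.2) := by
  unfold E
  have h1 : sq q.1 q.2 ⊆ sq (q.1 + 1) (ix (q.1 + 1) (pt q.1 q.2)) := by
    intro z hz
    have h2 : z ∈ DQ q.1 (pt q.1 q.2) := by rw [DQ_eq, sq_eq (pt_mem q.1 q.2)]; exact hz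
    exact nested (by omega) h2
  have h2 : ∫ z in sq q.1 q.2, g z ≤ ∫ z in sq (q.1 + 1) (ix (q.1 + 1) (pt q.1 q.2)), g z :=
    setIntegral_mono_set (intg hg).integrableOn (ae_of_all _ h0) h1.eventuallyLE
  unfold avg
  simp only
  rw [zpow_add₀ (by norm_num : (4 : ℝ) ≠ 0), zpow_one, mul_inv, ← mul_assoc]
  have h3 : (0 : ℝ) < ((4 : ℝ) ^ q.1)⁻¹ := by positivity
  calc ((4 : ℝ) ^ q.1)⁻¹ * ∫ z in sq q.1 q.2, g z
      ≤ ((4 : ℝ) ^ q.1)⁻¹ * ∫ z in sq (q.1 + 1) (ix (q.1 + 1) (pt q.1 q.2)), g z :=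
        mul_le_mul_of_nonneg_left h2 h3.le
    _ = _ := by ring

include hg h0 in
theorem avg_le {q : ℤ × (Fin 2 → ℤ)} (hq : Sel g lam q) : avg g q ≤ 4 * lam :=
  (avg_le_four hg h0 q).trans (by linarith [hq.2 (q.1 + 1) (by omega)])

include hg h0 hl in
theorem side_le {q : ℤ × (Fin 2 → ℤ)} (hq : lam < avg g q) :
    (2 : ℝ) ^ q.1 ≤ 1 + (∫ z, g z) / lam := by
  have h1 : lam * (4 : ℝ) ^ q.1 ≤ ∫ z, g z := by
    have h2 := four_mul_avg (g := g) q
    have h3 := setint_le hg h0 q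
    have h4 : (0 : ℝ) < (4 : ℝ) ^ q.1 := by positivity
    nlinarith
  have h2 : ((2 : ℝ) ^ q.1) ^ 2 = (4 : ℝ) ^ q.1 := by
    rw [← zpow_natCast, ← zpow_mul, mul_comm, zpow_mul]
    norm_num
  have h3 : ((2 : ℝ) ^ q.1) ^ 2 ≤ (∫ z, g z) / lam := by
    rw [h2, le_div_iff₀ hl]; linarith
  nlinarith [sq_nonneg ((2 : ℝ) ^ q.1 - 1), (by positivity : (0 : ℝ) < (2 : ℝ) ^ q.1)]

include hg h0 hl in
/-- if some average is large then `x` lies in a selected square -/
theorem exists_sel {x : Pl} {j : ℤ} (hj : lam < E g j x) : ∃ q, Sel g lam q ∧ x ∈ sq q.1 q.2 := by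
  obtain ⟨J, hJ⟩ : ∃ J : ℕ, 1 + (∫ z, g z) / lam < (2 : ℝ) ^ J := pow_unbounded_of_one_lt _ (by norm_num)
  have hb : ∀ i, lam < E g i x → i ≤ (J : ℤ) := by
    intro i hi
    by_contra hlt
    push Not at hlt
    have h1 := side_le hg h0 hl (q := (i, ix i x)) hi
    have h2 : (2 : ℝ) ^ (J : ℤ) ≤ (2 : ℝ) ^ i := zpow_le_zpow_right₀ (by norm_num) hlt.le
    rw [zpow_natCast] at h2
    simp only at h1
    linarith
  obtain ⟨i, hi1, hi2⟩ := Int.exists_greatest_of_bdd (P := fun i => lam < E g i x) ⟨J, hb⟩ ⟨j, hj⟩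
  refine ⟨(i, ix i x), ⟨hi1, fun j' hj' => ?_⟩, mem_sq_ix i x⟩
  simp only at hj' ⊢
  rw [← E_eq (mem_sq_ix i x) hj'.le]
  by_contra hlt
  push Not at hlt
  have := hi2 j' hlt
  omega

end

end CZ

open CZ

theorem hCZ (hLD : StLD) : StCZ := by
  obtain ⟨hS, hLD⟩ := hLD
  refine ⟨16 * Real.pi, by positivity, fun g hg h0 lam hl => ?_⟩
  classical
  obtain ⟨e⟩ : Nonempty (ℕ ≃ ℤ × (Fin 2 → ℤ)) := nonempty_equiv_of_countable
  have hgi := intg hg
  have hms : ∀ q : ℤ × (Fin 2 → ℤ), MeasurableSet (sq q.1 q.2) := meas_sq hS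
  have hvs : ∀ q : ℤ × (Fin 2 → ℤ), volume (sq q.1 q.2) = ENNReal.ofReal ((4 : ℝ) ^ q.1) :=
    vol_sq hS
  -- the selected squares, indexed by natural numbers
  obtain ⟨Q, hQ⟩ : ∃ Q : ℕ → Set Pl, Q = fun i => if Sel g lam (e i) then sq (e i).1 (e i).2 else ∅ :=
    ⟨_, rfl⟩
  have hQm : ∀ i, MeasurableSet (Q i) := by
    intro i; rw [hQ]; dsimp only; split_ifs
    · exact hms _
    · exact MeasurableSet.empty
  have hQs : ∀ i x, x ∈ Q i → Sel g lam (e i) ∧ x ∈ sq (e i).1 (e i).2 := by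
    intro i x hx; rw [hQ] at hx; dsimp only at hx; split_ifs at hx with h
    · exact ⟨h, hx⟩
    · exact absurd hx (notMem_empty _)
  have hQd : ∀ i j x, x ∈ Q i → x ∈ Q j → i = j := by
    intro i j x hi hj
    exact e.injective (disj (hQs i x hi).1 (hQs j x hj).1 (hQs i x hi).2 (hQs j x hj).2)
  have hQdisj : Pairwise (Function.onFun Disjoint Q) := by
    intro i j hij
    exact Set.disjoint_left.2 fun x hi hj => hij (hQd i j x hi hj)
  obtain ⟨a, ha⟩ : ∃ a : ℕ → ℝ, a = fun i => avg g (e i) := ⟨_, rfl⟩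
  have ha0 : ∀ i, 0 ≤ a i := fun i => by rw [ha]; exact avg_nonneg h0 _
  have ha4 : ∀ i x, x ∈ Q i → a i ≤ 4 * lam := fun i x hx => by
    rw [ha]; exact avg_le hg h0 (hQs i x hx).1
  -- the basic identity
  have hint : ∀ i, ∫⁻ x in Q i, ENNReal.ofReal (a i) = ∫⁻ x in Q i, ENNReal.ofReal (g x) := by
    intro i
    by_cases h : Sel g lam (e i)
    · have h1 : Q i = sq (e i).1 (e i).2 := by rw [hQ]; dsimp only; rw [if_pos h]
      rw [h1, setLIntegral_const, hvs, ← ENNReal.ofReal_mul (ha0 i),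
        ← ofReal_integral_eq_lintegral_ofReal hgi.integrableOn (ae_of_all _ h0)]
      congr 1
      rw [mul_comm, ha]
      exact four_mul_avg (e i)
    · have h1 : Q i = ∅ := by rw [hQ]; dsimp only; rw [if_neg h]
      rw [h1]; simp
  have hgn : ∀ x, ‖g x‖ₑ = ENNReal.ofReal (g x) := fun x => by
    rw [← ofReal_norm, Real.norm_of_nonneg (h0 x)]
  obtain ⟨U, hU⟩ : ∃ U : Set Pl, U = ⋃ i, Q i := ⟨_, rfl⟩
  have hUm : MeasurableSet U := by rw [hU]; exact MeasurableSet.iUnion hQm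
  have hsumQ : ∑' i, ∫⁻ x in Q i, ENNReal.ofReal (g x) = ∫⁻ x in U, ENNReal.ofReal (g x) := by
    rw [hU, lintegral_iUnion hQm hQdisj]
  have hUle : ∫⁻ x in U, ENNReal.ofReal (g x) ≤ ∫⁻ x, ENNReal.ofReal (g x) := setLIntegral_le_lintegral _ _
  -- the good function
  obtain ⟨T, hT⟩ : ∃ T : Pl → ℝ≥0∞, T = fun x => ∑' i, (Q i).indicator (fun _ => ENNReal.ofReal (a i)) x :=
    ⟨_, rfl⟩
  have hTm : Measurable T := by
    rw [hT]
    exact Measurable.tsum fun i => measurable_const.indicator (hQm i)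
  have hTx : ∀ i x, x ∈ Q i → T x = ENNReal.ofReal (a i) := by
    intro i x hx
    rw [hT]; dsimp only
    rw [tsum_eq_single i, indicator_of_mem hx]
    intro j hj
    exact indicator_of_notMem (fun hx' => hj (hQd j i x hx' hx)) _
  obtain ⟨G, hG⟩ : ∃ G : Pl → ℝ, G = fun x => if x ∈ U then (T x).toReal else min (g x) lam :=
    ⟨_, rfl⟩
  have hGQ : ∀ i x, x ∈ Q i → G x = a i := by
    intro i x hx
    have hxU : x ∈ U := by rw [hU]; exact mem_iUnion.2 ⟨i, hx⟩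
    rw [hG]; dsimp only
    rw [if_pos hxU, hTx i x hx, ENNReal.toReal_ofReal (ha0 i)]
  have hGU : ∀ x, x ∉ U → G x = min (g x) lam := by
    intro x hx; rw [hG]; dsimp only; rw [if_neg hx]
  have hUx : ∀ x, x ∈ U → ∃ i, x ∈ Q i := by
    intro x hx; rw [hU] at hx; exact mem_iUnion.1 hx
  have hG0 : ∀ x, 0 ≤ G x := by
    intro x
    by_cases hx : x ∈ U
    · obtain ⟨i, hi⟩ := hUx x hx
      rw [hGQ i x hi]; exact ha0 i
    · rw [hGU x hx]; exact le_min (h0 x) hl.le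
  have hG4 : ∀ x, G x ≤ 4 * lam := by
    intro x
    by_cases hx : x ∈ U
    · obtain ⟨i, hi⟩ := hUx x hx
      rw [hGQ i x hi]; exact ha4 i x hi
    · rw [hGU x hx]; exact (min_le_right _ _).trans (by linarith)
  have hGm : Measurable G := by
    rw [hG]
    exact Measurable.ite hUm hTm.ennreal_toReal (hg.1.min measurable_const)
  obtain ⟨K, hK1, hK2⟩ := hg.2
  -- supports
  have hsupp : ∀ i x, x ∈ Q i → ‖x‖ ≤ K + 2 * (1 + (∫ z, g z) / lam) := by
    intro i x hx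
    obtain ⟨h1, h2⟩ := hQs i x hx
    obtain ⟨z, hz1, hz2⟩ : ∃ z ∈ sq (e i).1 (e i).2, g z ≠ 0 := by
      by_contra hcon
      push Not at hcon
      have h3 : ∫ z in sq (e i).1 (e i).2, g z = 0 := by
        rw [setIntegral_congr_fun (hms (e i)) (g := fun _ => (0 : ℝ)) (fun z hz => hcon z hz)]
        simp
      have h4 := h1.1
      unfold avg at h4
      rw [h3, mul_zero] at h4
      linarith
    have h5 : ‖z‖ ≤ K := by
      by_contra hcon
      push Not at hcon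
      exact hz2 (hK2 z hcon)
    have h6 := dist_sq h2 hz1
    have h7 := side_le hg h0 hl h1.1
    calc ‖x‖ = ‖z + (x - z)‖ := by congr 1; abel
      _ ≤ ‖z‖ + ‖x - z‖ := norm_add_le _ _
      _ ≤ _ := by linarith
  have hI0 : 0 ≤ (∫ z, g z) / lam := div_nonneg (integral_nonneg fun x => h0 x) hl.le
  have hK0 : 0 ≤ K := (abs_nonneg (g 0)).trans (hK1 0)
  have hGBB : BB G := by
    refine ⟨hGm, 4 * lam + (K + 2 * (1 + (∫ z, g z) / lam)), fun x => ?_, fun x hx => ?_⟩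
    · rw [abs_of_nonneg (hG0 x)]
      linarith [hG4 x]
    · have hxU : x ∉ U := by
        intro hxU
        obtain ⟨i, hi⟩ := hUx x hxU
        have := hsupp i x hi
        linarith
      rw [hGU x hxU, hK2 x (by linarith), min_eq_left hl.le]
  -- the bad functions
  obtain ⟨b, hb⟩ : ∃ b : ℕ → Pl → ℝ, b = fun i => (Q i).indicator (fun x => g x - a i) := ⟨_, rfl⟩
  have hbx : ∀ i x, x ∈ Q i → b i x = g x - a i := by
    intro i x hx; rw [hb]; exact indicator_of_mem hx _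
  have hbn : ∀ i x, x ∉ Q i → b i x = 0 := by
    intro i x hx; rw [hb]; exact indicator_of_notMem hx _
  have hbK : ∀ i x, |b i x| ≤ K + 4 * lam := by
    intro i x
    by_cases hx : x ∈ Q i
    · rw [hbx i x hx, abs_le]
      have h1 := hK1 x
      have h2 := h0 x
      rw [abs_of_nonneg h2] at h1
      constructor <;> linarith [ha0 i, ha4 i x hx]
    · rw [hbn i x hx, abs_zero]; linarith
  have hbBB : ∀ i, BB (b i) := by
    intro i
    refine ⟨?_, K + 4 * lam + 2 * (1 + (∫ z, g z) / lam), fun x => ?_, fun x hx => ?_⟩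
    · rw [hb]; exact (hg.1.sub_const _).indicator (hQm i)
    · linarith [hbK i x]
    · refine hbn i x fun hxQ => ?_
      have := hsupp i x hxQ
      linarith
  have hQfin : ∀ i, volume (Q i) ≠ ⊤ := by
    intro i
    by_cases h : Sel g lam (e i)
    · have h1 : Q i = sq (e i).1 (e i).2 := by rw [hQ]; dsimp only; rw [if_pos h]
      rw [h1, hvs]; exact ENNReal.ofReal_ne_top
    · have h1 : Q i = ∅ := by rw [hQ]; dsimp only; rw [if_neg h]
      rw [h1]; simp
  refine ⟨G, b, fun i => if Sel g lam (e i) then pt (e i).1 (e i).2 else 0,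
    fun i => if Sel g lam (e i) then 2 * (2 : ℝ) ^ (e i).1 else 0, hGBB, fun x => ⟨hG0 x, hG4 x⟩,
    ?_, fun i => ⟨hbBB i, ?_, ?_, fun x hx => ?_, ?_⟩, fun i j hij x => ?_, ⟨_, hbK⟩, ?_, ?_, ?_⟩
  · -- integral of G
    have h1 : ∫⁻ x, ‖G x‖ₑ = (∫⁻ x in U, ‖G x‖ₑ) + ∫⁻ x in Uᶜ, ‖G x‖ₑ :=
      (lintegral_add_compl _ hUm).symm
    have h2 : ∫⁻ x, ‖g x‖ₑ = (∫⁻ x in U, ‖g x‖ₑ) + ∫⁻ x in Uᶜ, ‖g x‖ₑ :=
      (lintegral_add_compl _ hUm).symm
    rw [h1, h2]
    refine add_le_add ?_ ?_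
    · rw [hU, lintegral_iUnion hQm hQdisj, lintegral_iUnion hQm hQdisj]
      refine ENNReal.tsum_le_tsum fun i => ?_
      rw [setLIntegral_congr_fun (hQm i) (g := fun _ => ENNReal.ofReal (a i))
        (fun x hx => by rw [hGQ i x hx, ← ofReal_norm, Real.norm_of_nonneg (ha0 i)]), hint i]
      exact lintegral_mono fun x => (hgn x).ge
    · refine setLIntegral_mono' hUm.compl fun x hx => ?_
      rw [hGU x hx, ← ofReal_norm, Real.norm_of_nonneg (le_min (h0 x) hl.le), hgn]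
      exact ENNReal.ofReal_le_ofReal (min_le_left _ _)
  · dsimp only; split_ifs <;> positivity
  · dsimp only
    split_ifs with h
    · left; positivity
    · right
      intro x
      refine hbn i x fun hxQ => h (hQs i x hxQ).1
  · dsimp only at hx
    refine hbn i x fun hxQ => ?_
    obtain ⟨h1, h2⟩ := hQs i x hxQ
    rw [if_pos h1, if_pos h1] at hx
    have := dist_sq h2 (pt_mem (e i).1 (e i).2)
    linarith
  · -- mean zero
    rw [hb]; dsimp only
    rw [integral_indicator (hQm i), integral_sub hgi.integrableOn (integrableOn_const (hQfin i)),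
      setIntegral_const]
    by_cases h : Sel g lam (e i)
    · have h1 : Q i = sq (e i).1 (e i).2 := by rw [hQ]; dsimp only; rw [if_pos h]
      rw [h1, Measure.real, hvs, ENNReal.toReal_ofReal (by positivity), smul_eq_mul, ha,
        four_mul_avg (e i), sub_self]
    · have h1 : Q i = ∅ := by rw [hQ]; dsimp only; rw [if_neg h]
      rw [h1]; simp
  · by_cases hx : x ∈ Q i
    · right
      exact hbn j x fun hxj => hij (hQd i j x hx hxj)
    · left; exact hbn i x hx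
  · -- almost everywhere
    filter_upwards [hLD g hg] with x hx
    by_cases hxU : x ∈ U
    · obtain ⟨i, hi⟩ := hUx x hxU
      right
      exact ⟨i, by rw [hGQ i x hi, hbx i x hi]; ring,
        fun j hj => hbn j x fun hxj => hj (hQd j i x hxj hi)⟩
    · left
      have hxQ : ∀ i, x ∉ Q i := fun i hi => hxU (by rw [hU]; exact mem_iUnion.2 ⟨i, hi⟩)
      refine ⟨fun i => hbn i x (hxQ i), ?_⟩
      rw [hGU x hxU]
      have hle : ∀ j : ℕ, ((4 : ℝ) ^ (-(j : ℤ)))⁻¹ * ∫ z in DQ (-(j : ℤ)) x, g z ≤ lam := by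
        intro j
        by_contra hcon
        push Not at hcon
        obtain ⟨q, hq1, hq2⟩ := exists_sel hg h0 hl (x := x) (j := -(j : ℤ)) hcon
        refine hxQ (e.symm q) ?_
        rw [hQ]; dsimp only
        rw [e.apply_symm_apply, if_pos hq1]
        exact hq2
      exact (min_eq_left (le_of_tendsto' hx hle)).symm
  · -- L1 norm of the bad functions
    have h1 : ∀ i, ∫⁻ x, ‖b i x‖ₑ ≤ 2 * ∫⁻ x in Q i, ENNReal.ofReal (g x) := by
      intro i
      have h2 : ∫⁻ x, ‖b i x‖ₑ = ∫⁻ x in Q i, ‖b i x‖ₑ := by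
        rw [← lintegral_indicator (hQm i)]
        congr 1
        funext x
        by_cases hx : x ∈ Q i
        · rw [indicator_of_mem hx]
        · rw [indicator_of_notMem hx, hbn i x hx, enorm_zero]
      rw [h2]
      calc ∫⁻ x in Q i, ‖b i x‖ₑ ≤ ∫⁻ x in Q i, (ENNReal.ofReal (g x) + ENNReal.ofReal (a i)) := by
            refine setLIntegral_mono' (hQm i) fun x hx => ?_
            rw [hbx i x hx, ← ENNReal.ofReal_add (h0 x) (ha0 i), ← ofReal_norm]
            refine ENNReal.ofReal_le_ofReal ?_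
            rw [Real.norm_eq_abs, abs_le]
            constructor <;> linarith [h0 x, ha0 i]
        _ = (∫⁻ x in Q i, ENNReal.ofReal (g x)) + ∫⁻ x in Q i, ENNReal.ofReal (a i) :=
            lintegral_add_right _ measurable_const
        _ = _ := by rw [hint i, two_mul]
    calc ∑' i, ∫⁻ x, ‖b i x‖ₑ ≤ ∑' i, 2 * ∫⁻ x in Q i, ENNReal.ofReal (g x) :=
          ENNReal.tsum_le_tsum h1
      _ = 2 * ∑' i, ∫⁻ x in Q i, ENNReal.ofReal (g x) := ENNReal.tsum_mul_left
      _ ≤ 2 * ∫⁻ x, ENNReal.ofReal (g x) := by rw [hsumQ]; gcongr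
      _ = _ := by simp only [hgn]
  · -- volume
    have h1 : ∀ i, volume (Metric.closedBall (if Sel g lam (e i) then pt (e i).1 (e i).2 else 0)
        (2 * if Sel g lam (e i) then 2 * (2 : ℝ) ^ (e i).1 else 0)) ≤
        ENNReal.ofReal (16 * Real.pi / lam) * ∫⁻ x in Q i, ENNReal.ofReal (g x) := by
      intro i
      by_cases h : Sel g lam (e i)
      · have h1 : Q i = sq (e i).1 (e i).2 := by rw [hQ]; dsimp only; rw [if_pos h]
        rw [if_pos h, if_pos h, h1,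
          ← ofReal_integral_eq_lintegral_ofReal hgi.integrableOn (ae_of_all _ h0),
          ← ENNReal.ofReal_mul (by positivity), EuclideanSpace.volume_closedBall_fin_two,
          ← four_mul_avg (e i)]
        have hr : (0 : ℝ) ≤ 2 * (2 * (2 : ℝ) ^ (e i).1) := by positivity
        rw [← ENNReal.ofReal_pow hr, ← NNReal.coe_real_pi,
          ← ENNReal.ofReal_mul (by positivity)]
        refine ENNReal.ofReal_le_ofReal ?_
        have h2 : ((2 : ℝ) ^ (e i).1) ^ 2 = (4 : ℝ) ^ (e i).1 := by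
          rw [← zpow_natCast, ← zpow_mul, mul_comm, zpow_mul]
          norm_num
        have h3 : (0 : ℝ) < (4 : ℝ) ^ (e i).1 := by positivity
        have h4 := h.1
        have hpi : (0 : ℝ) < (NNReal.pi : ℝ) := by rw [NNReal.coe_real_pi]; exact Real.pi_pos
        have h5 : (2 * (2 * (2 : ℝ) ^ (e i).1)) ^ 2 * (NNReal.pi : ℝ) =
            16 * (NNReal.pi : ℝ) * (4 : ℝ) ^ (e i).1 := by rw [← h2]; ring
        rw [h5]
        have h6 : 16 * (NNReal.pi : ℝ) / lam * ((4 : ℝ) ^ (e i).1 * avg g (e i)) =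
            16 * (NNReal.pi : ℝ) * (4 : ℝ) ^ (e i).1 * (avg g (e i) / lam) := by
          field_simp
        rw [h6]
        have h7 : 1 ≤ avg g (e i) / lam := by rw [le_div_iff₀ hl]; linarith
        have h8 : 0 < 16 * (NNReal.pi : ℝ) * (4 : ℝ) ^ (e i).1 := by positivity
        nlinarith
      · rw [if_neg h, if_neg h, mul_zero, Metric.closedBall_zero]
        simp
    calc ∑' i, volume (Metric.closedBall (if Sel g lam (e i) then pt (e i).1 (e i).2 else 0)
          (2 * if Sel g lam (e i) then 2 * (2 : ℝ) ^ (e i).1 else 0))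
        ≤ ∑' i, ENNReal.ofReal (16 * Real.pi / lam) * ∫⁻ x in Q i, ENNReal.ofReal (g x) :=
          ENNReal.tsum_le_tsum h1
      _ = ENNReal.ofReal (16 * Real.pi / lam) * ∑' i, ∫⁻ x in Q i, ENNReal.ofReal (g x) :=
          ENNReal.tsum_mul_left
      _ ≤ ENNReal.ofReal (16 * Real.pi / lam) * ∫⁻ x, ENNReal.ofReal (g x) := by
          rw [hsumQ]; gcongr
      _ = _ := by simp only [hgn]

end Pool.Agent.Helper68.LM
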