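import Pool.Agent.Helper68.LM.Geo
import Pool.Agent.Helper68.LM.M_CZ
import Pool.Agent.Helper29.LM.M_PH
import Pool.Agent.Helper4.LM.M_BBC
import Pool.Agent.Helper42.LM.M_LC
import Pool.Agent.Helper42.LM.M_MZ1
import Pool.Agent.Helper42.LM.M_MZ2
import Pool.Agent.Helper42.LM.M_MZ3
import Pool.Agent.Helper27.LM.M_HLW
import Pool.Agent.Helper27.LM.M_NUM
import Pool.Agent.Helper27.LM.M_LD
import Pool.Agent.Helper17.LM.M_HLS
import Pool.Agent.Helper17.LM.M_HLD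
import Pool.Agent.Helper17.LM.M_L2E
import Pool.Agent.Helper17.LM.M_L2D
import Pool.Agent.Helper79.LM.M_PL
import Pool.Agent.Helper79.LM.M_TC
import Pool.Agent.Helper80.LM.M_FA
import Pool.Agent.Helper84.LM.M_FS
import Pool.Agent.Helper82.LM.M_HO1
import Pool.Agent.Helper82.LM.M_HA
import Pool.Agent.Helper82.LM.M_SUP
import Pool.Agent.Helper65.LM.M_HO
import Pool.Agent.Helper81.LM.M_W11
import Pool.Agent.Helper95.LM.M_TD
import Pool.Agent.Helper23.LM.M_CONV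
import Pool.Agent.Helper29.LM.M_PA
import Pool.Agent.Helper29.LM.M_PB
import Pool.Agent.Helper8.LM.M_VDC
import Pool.Agent.Helper70.LM.M_AD
import Pool.Agent.Helper60.LM.M_DOM
import Pool.Agent.Helper41.LM.M_COV
import Pool.Agent.Helper31.LM.M_SD
import Pool.Agent.Helper31.LM.M_DY
import Pool.Agent.Helper31.LM.M_EX
import Pool.Agent.Helper12.LM.M_CAP
import Pool.Agent.Helper2.LM.M_THA
import Pool.Agent.Helper2.LM.M_THB

/-!
# Project LM (MP_cb927e_an): assembly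
-/

set_option autoImplicit false

namespace Pool.Agent.Helper68.LM

theorem aBBC : StBBC := Helper4.LM.hBBC Helper29.LM.hPH
theorem aLC : StLC := Helper42.LM.hLC
theorem aMZ1 : StMZ1 := Helper42.LM.hMZ1 aLC
theorem aMZ2 : StMZ2 := Helper42.LM.hMZ2 aLC
theorem aMZ3 : StMZ3 := Helper42.LM.hMZ3 aLC
theorem aHLS : StHLS := Helper17.LM.hHLS Helper27.LM.hHLW aMZ1
theorem aHLD : StHLD := Helper17.LM.hHLD Helper29.LM.hPH aBBC
theorem aFS : StFS := Helper84.LM.hFS Helper29.LM.hPH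
theorem aL2E : StL2E :=
  Helper17.LM.hL2E aBBC Helper79.LM.hPL Helper80.LM.hFA aFS Helper27.LM.hNUM
theorem aL2D : StL2D :=
  Helper17.LM.hL2D aBBC Helper79.LM.hPL Helper80.LM.hFA aFS Helper27.LM.hNUM
theorem aCZ : StCZ := hCZ Helper27.LM.hLD
theorem aHO1 : StHO1 := Helper82.LM.hHO1 Helper29.LM.hPH aBBC
theorem aHO : StHO := Helper65.LM.hHO aBBC aHO1
theorem aW11 : StW11 := Helper81.LM.hW11 aBBC aCZ aHO
theorem aTD : StTD := Helper95.LM.hTD aBBC aMZ3 aW11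
theorem aCONV : StCONV := Helper23.LM.hCONV Helper29.LM.hPH aBBC
theorem aPA : StPA := Helper29.LM.hPA aBBC aMZ2 aHLS aHLD aL2E
theorem aPB : StPB := Helper29.LM.hPB aBBC aHLS aHLD aL2D aCONV aTD
theorem aHA : StHA := Helper82.LM.hHA aBBC aPA aPB
theorem aAD : StAD := Helper70.LM.hAD Helper8.LM.hVDC
theorem aTC : StTC := Helper79.LM.hTC aHA aAD Helper60.LM.hDOM
theorem aCAP : StCAP := Helper12.LM.hCAP Helper31.LM.hSD Helper82.LM.hSUP
theorem aDY : StDY := Helper31.LM.hDY Helper31.LM.hSD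
theorem aTHA : StTHA := Helper2.LM.hTHA aTC Helper41.LM.hCOV aCAP aDY
theorem aTHB : StTHB := Helper2.LM.hTHB aTC Helper41.LM.hCOV aDY Helper31.LM.hEX

end Pool.Agent.Helper68.LM
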