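import Pool.Agent.Helper68.LM.St

/-!
# Project LM (MP_cb927e_an): curves, definitions and interface statements
-/

set_option autoImplicit false

open MeasureTheory Set Filter Topology
open scoped ENNReal RealInnerProductSpace

namespace Pool.Agent.Helper68.LM

open Pool.Agent.Helper61.Lacunary (ConditionG LpBounded)

/-- `G` is, on `[a,b]`, the graph of a function `φ` in an orthonormal frame `(u,v)` with origin `c`;
`φ` is continuous on `[a,b]`, `C^2` on `(a,b)`, of slope at most one, and `φ'' ≥ κ`. -/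
def IsArc (a b κ : ℝ) (G : ℝ → Pl) : Prop :=
  a < b ∧ ∃ (c u v : Pl) (φ : ℝ → ℝ), ‖u‖ = 1 ∧ ‖v‖ = 1 ∧ ⟪u, v⟫ = 0 ∧
    (∀ t, G t = c + t • u + φ t • v) ∧ ContinuousOn φ (Icc a b) ∧ ContDiffOn ℝ 2 φ (Ioo a b) ∧
    ∀ t ∈ Ioo a b, |deriv φ t| ≤ 1 ∧ κ ≤ deriv (deriv φ) t

/-- the measure `dt` on the arc -/
noncomputable def arcMeasure (a b : ℝ) (G : ℝ → Pl) : Measure Pl :=
  (volume.restrict (Icc a b)).map G

/-- The set `Γ` is covered, up to a set of length zero, by countably many arcs of lengths `ℓ i` and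
curvatures at least `κ i`, with `∑ ℓ (1 + log (1 + 1 / (ℓ κ))) ^ (1 / p) < ∞`. -/
def Cover (p : ℝ) (Γ : Set Pl) : Prop :=
  ∃ (G : ℕ → ℝ → Pl) (a b κ : ℕ → ℝ), (∀ i, IsArc (a i) (b i) (κ i) (G i) ∧ 0 < κ i ∧ κ i ≤ 1) ∧
    (μH[1] : Measure Pl) (Γ \ ⋃ i, G i '' Icc (a i) (b i)) = 0 ∧
    Summable (fun i => (b i - a i) * (1 + Real.log (1 + 1 / ((b i - a i) * κ i))) ^ (1 / p))

/-- the curve `t ↦ P + t u + φ(t) v` -/
noncomputable def curve (P u v : Pl) (φ : ℝ → ℝ) (t : ℝ) : Pl := P + t • u + φ t • v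

/-- One side of a curve at a point `P` which may be flat: `φ(0) = φ'(0) = 0`, `φ'' > 0` is
nondecreasing. -/
def Side (P u v : Pl) (c : ℝ) (φ : ℝ → ℝ) : Prop :=
  ‖u‖ = 1 ∧ ‖v‖ = 1 ∧ ⟪u, v⟫ = 0 ∧ 0 < c ∧ c ≤ 1 ∧ φ 0 = 0 ∧ ContinuousOn φ (Icc 0 c) ∧
    ContDiffOn ℝ 2 φ (Ioo 0 c) ∧ Tendsto (deriv φ) (𝓝[>] 0) (𝓝 0) ∧
    (∀ t ∈ Ioo 0 c, |deriv φ t| ≤ 1 ∧ 0 < deriv (deriv φ) t) ∧
    MonotoneOn (deriv (deriv φ)) (Ioo 0 c)

/-- Near `y` the set `Γ` is contained in a `C^2` arc of positive curvature. -/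
def CurvedAt (Γ : Set Pl) (y : Pl) : Prop :=
  ∃ U ∈ 𝓝 y, ∃ (G : ℝ → Pl) (a b κ : ℝ), IsArc a b κ G ∧ 0 < κ ∧ Γ ∩ U ⊆ G '' Icc a b

/-- Near `P` the set `Γ` consists of `P` and of two sides. -/
def FlatAt (Γ : Set Pl) (P : Pl) : Prop :=
  ∃ U ∈ 𝓝 P, ∃ (u₁ v₁ u₂ v₂ : Pl) (c₁ c₂ : ℝ) (φ₁ φ₂ : ℝ → ℝ),
    Side P u₁ v₁ c₁ φ₁ ∧ Side P u₂ v₂ c₂ φ₂ ∧ curve P u₁ v₁ φ₁ '' Ioo 0 c₁ ⊆ Γ ∧
    curve P u₂ v₂ φ₂ '' Ioo 0 c₂ ⊆ Γ ∧
    Γ ∩ U ⊆ {P} ∪ (curve P u₁ v₁ φ₁ '' Ioo 0 c₁ ∪ curve P u₂ v₂ φ₂ '' Ioo 0 c₂)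

/-- `exp (-1/|t|^a)` -/
noncomputable def flatExp (a t : ℝ) : ℝ := if t = 0 then 0 else Real.exp (-1 / |t| ^ a)

/-! ## Interface statements -/

/-- VDC (about 200 lines).  First bound: `g'` is continuous and does not vanish on `(a,b)`, so `g' ≥ μ` or `g' ≤ -μ`
(connectedness), and `g'` is monotone.  On `[a',b'] ⊂ (a,b)` integrate by parts
`∫ e^{ig} = ∫ (i g' e^{ig}) (1/(i g')) = [e^{ig}/(i g')] + ∫ e^{ig} g''/(i g'^2)`, norm at most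
`2/μ + |1/g'(b') - 1/g'(a')| ≤ 3/μ`; let `a' → a`, `b' → b`.  Second bound (`g'' ≥ μ`; the other case by `g ↦ -g` and
conjugation): `g'` is strictly increasing, `{|g'| ≤ δ}` is an interval of length at most `2δ/μ`, the rest consists
of at most two intervals on which the first bound gives `3/δ`; total `2δ/μ + 6/δ` with `δ = sqrt (3μ)` is
`4 sqrt 3 / sqrt μ ≤ 8/sqrt μ`.  Hypotheses: none. -/
def StVDC : Prop :=
  ∀ (a b μ : ℝ) (g : ℝ → ℝ), a < b → 0 < μ → ContinuousOn g (Icc a b) → ContDiffOn ℝ 2 g (Ioo a b) →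
    (((∀ t ∈ Ioo a b, 0 ≤ deriv (deriv g) t) ∨ (∀ t ∈ Ioo a b, deriv (deriv g) t ≤ 0)) →
      (∀ t ∈ Ioo a b, μ ≤ |deriv g t|) →
      ‖∫ t in a..b, Complex.exp ((g t : ℂ) * Complex.I)‖ ≤ 3 / μ) ∧
    (((∀ t ∈ Ioo a b, μ ≤ deriv (deriv g) t) ∨ (∀ t ∈ Ioo a b, deriv (deriv g) t ≤ -μ)) →
      ‖∫ t in a..b, Complex.exp ((g t : ℂ) * Complex.I)‖ ≤ 8 / Real.sqrt μ)

/-- AD (about 150 lines).  `fm (arcMeasure a b G) ξ = ∫_{Icc a b} exp(-2πi ⟪G t, ξ⟫) dt` (`integral_map`; `G` is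
continuous on `Icc a b`, so a.e. measurable for the restricted measure).  For `‖ξ‖ ≤ 1` use the trivial bound `b - a`
and `2^N/‖ξ‖ ≥ 1`.  For `r = ‖ξ‖ ≥ 1`: `-2π⟪G t, ξ⟫ = g t = const - 2π(α t + β φ t)`, `α = ⟪u,ξ⟫`, `β = ⟪v,ξ⟫`,
`α² + β² = r²` (orthonormal basis of the plane).  If `|β| ≥ r/3` then `|g''| ≥ 2π κ r/3` with constant sign, VDC gives
`8/sqrt(2πκr/3)`.  If `|β| < r/3` then `|α| ≥ 0.9 r`, `|g'| ≥ 2π(0.9 - 1/3) r ≥ r`, `g''` has constant sign (or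
`β = 0`), VDC gives `3/r ≤ 3/sqrt(κ r)`.  So `‖fm‖ ≤ 10/sqrt(κ r) ≤ (b-a) sqrt(2^N/r)` if
`100/(κ (b-a)^2) ≤ 2^N`; `C = 100`.  Hypotheses: hVDC. -/
def StAD : Prop :=
  ∃ C : ℝ, 1 ≤ C ∧ ∀ (a b κ : ℝ) (G : ℝ → Pl), IsArc a b κ G → 0 < κ → κ ≤ 1 → ∀ N : ℕ,
    C / (κ * (b - a) ^ 2) ≤ 2 ^ N → Dec (b - a) N (arcMeasure a b G)

/-- DOM (about 80 lines).  `φ` is 1-Lipschitz on `Icc a b` (mean value inequality), so `G` is Lipschitz there with constant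
`sqrt 2 ≤ 2` (orthonormal frame).  `G '' Icc a b ∩ B = G '' (Icc a b ∩ G⁻¹' B)`,
`LipschitzOnWith.hausdorffMeasure_image_le` (dimension one) and `hausdorffMeasure_real`;
`arcMeasure a b G B = volume (Icc a b ∩ G⁻¹' B)` (`Measure.map_apply_of_aemeasurable`, null measurable is enough).
Hypotheses: none. -/
def StDOM : Prop :=
  ∀ (a b κ : ℝ) (G : ℝ → Pl), IsArc a b κ G → ∀ B : Set Pl, MeasurableSet B →
    (μH[1] : Measure Pl) (G '' Icc a b ∩ B) ≤ 2 * arcMeasure a b G B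

/-- TC (about 250 lines).  Let `frontier Ω ⊆ closedBall 0 R₀`, `M = sup (b i - a i) < ∞` (the summands tend to zero), and
`R = R₀ + 2M + 1`.  Let `I` be the set of `i` for which `G i '' Icc (a i) (b i)` meets `closedBall 0 R₀`; these arcs
lie in `closedBall 0 R` (diameter `≤ 2 (b i - a i)`).  `ν i = arcMeasure`, `L i = b i - a i`, `Bd R (L i) (ν i)`, and by AD
`Dec (L i) (N i) (ν i)` for the least `N i` with `C/(κ i L i^2) ≤ 2^(N i)`; `N i + 1 ≤ C' (1 + log (1 + 1/(L i κ i)))`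
(as `κ i ≤ 1`, `1/(κ L²) ≤ (1/(κ L))²` or bound `L`; constants may depend on `M`).  By DOM
`μH[1].restrict (frontier Ω) ≤ ∑_{i ∈ I} 2 ν i` on measurable sets (countable subadditivity).  For `f ∈ L^p` let
`h = ‖f₀‖ₑ` with `f₀` a measurable representative: for a.e. `x`, for all `k`,
`|avg Ω k f x| ≤ ∫⁻ y, h (x - 2^k y) dσ(y)` (for a.e. `x` the set of `y` with `f (x-2^k y) ≠ f₀ (x - 2^k y)` is `σ`-null
by Fubini, `σ` is finite) `≤ 2 ∑_i ∫⁻ h (x - 2^k y) dν_i(y)`; take the supremum over `k`, `L^p` norms and the countable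
Minkowski inequality: `‖M f‖_p ≤ 2 ∑ (C L_i^p (N_i + 1))^(1/p) ‖f‖_p < ∞`.  Hypotheses: hHA, hAD, hDOM. -/
def StTC : Prop :=
  ∀ (Ω : Set Pl) (p : ℝ), Bornology.IsBounded Ω → 1 < p → Cover p (frontier Ω) → LpBounded Ω p

/-- COV (about 150 lines).  Monotone: same arcs.  Union: interleave the two sequences (`Summable` on even and odd
indices, or use `Equiv ℕ ≃ ℕ ⊕ ℕ`).  Null sets: the arcs `G i t = t e₀ + (t²/2) e₁` on `[0, 2^(-i)/2]`, `κ = 1`, and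
`∑ 2^(-i) (1 + log(1 + 2^(i+1)))^(1/p) < ∞`.  One arc: the sequence whose first member is the arc with `κ` replaced
by `min κ 1`, followed by the small arcs.  Hypotheses: none. -/
def StCOV : Prop :=
  ∀ p : ℝ, 1 < p →
    (∀ Γ Γ' : Set Pl, Γ ⊆ Γ' → Cover p Γ' → Cover p Γ) ∧
    (∀ Γ Γ' : Set Pl, Cover p Γ → Cover p Γ' → Cover p (Γ ∪ Γ')) ∧
    (∀ Γ : Set Pl, (μH[1] : Measure Pl) Γ = 0 → Cover p Γ) ∧
    (∀ (a b κ : ℝ) (G : ℝ → Pl), IsArc a b κ G → 0 < κ → Cover p (G '' Icc a b))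

/-- SD (about 80 lines).  `φ'` is strictly increasing on `(0,c)` with limit `0` at `0`, so `φ' > 0` and `φ > 0`;
`φ'(s) ≤ s φ''(t)` for `0 < s ≤ t` (mean value theorem and monotone `φ''`), and integrating `φ(t) ≤ t²/2 φ''(t)`.
Hypotheses: none. -/
def StSD : Prop :=
  ∀ (P u v : Pl) (c : ℝ) (φ : ℝ → ℝ), Side P u v c φ → ∀ t ∈ Ioo 0 c,
    0 < φ t ∧ 0 < deriv φ t ∧ φ t ≤ t ^ 2 / 2 * deriv (deriv φ) t

/-- SUP (about 120 lines).  Let `0 < t < c`, `y = curve t ∈ frontier Ω`, `x ∈ Ω`.  There is a supporting functional at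
`y` (`geometric_hahn_banach_open_point`): `n ≠ 0` with `⟪z - y, n⟫ ≥ 0` for `z ∈ closure Ω`, `> 0` on `Ω`.  Since
`curve s ∈ closure Ω` for `s` near `t`, the function `s ↦ ⟪curve s - y, n⟫` has a minimum at `t`, so its derivative
`⟪u + φ'(t) v, n⟫ = 0`, that is `n = λ (v - φ'(t) u)` with `λ ≠ 0`; by strict convexity
`⟪curve s - y, v - φ'(t) u⟫ = φ(s) - φ(t) - φ'(t)(s - t) > 0` for `s ≠ t`, so `λ > 0` and
`⟪x - y, v - φ'(t) u⟫ ≥ 0`.  Let `t → 0`.  Hypotheses: none. -/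
def StSUP : Prop :=
  ∀ (Ω : Set Pl) (P u v : Pl) (c : ℝ) (φ : ℝ → ℝ), IsOpen Ω → Convex ℝ Ω → Ω.Nonempty →
    Side P u v c φ → curve P u v φ '' Ioo 0 c ⊆ frontier Ω → ∀ x ∈ Ω, 0 ≤ ⟪x - P, v⟫

/-- CAP (about 200 lines).  Let `δ₀` be admissible and `A'` the bound of `capIntegral Ω q δ₀` at `θ = -v`.  By SUP
`⟪x - P, v⟫ ≥ 0` on `Ω` and `P ∈ closure Ω`, so `sSup ((⟪·,θ⟫) '' Ω) = ⟪P, θ⟫` and
`linePlus Ω θ = {z | ⟪z - P, v⟫ = 0}`; the distance of `curve s` to it is at most `φ s`.  If `φ t ≤ δ` then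
`capPlus Ω θ δ` contains `curve '' Ioo 0 t` (`φ` increasing by SD), of length `≥ t` (the projection `⟪·,u⟫` is
1-Lipschitz), so `capLength Ω θ δ ≥ t` and `A' ≥ ∫_{φ t}^{δ₀} t^q dδ/δ = t^q log(δ₀/φ t)` if `φ t < δ₀`.  Hence
`φ t ≥ δ₀ exp(-A' t^(-q)) ≥ exp(-A t^(-q))` with `A = max A' 0 + |log δ₀| + 1` as `t < c ≤ 1`; if `φ t ≥ δ₀` the same.
Hypotheses: hSD, hSUP. -/
def StCAP : Prop :=
  ∀ (Ω : Set Pl) (P u v : Pl) (c q : ℝ) (φ : ℝ → ℝ), IsOpen Ω → Convex ℝ Ω →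
    Bornology.IsBounded Ω → Ω.Nonempty → 0 < q → ConditionG Ω q → Side P u v c φ →
    P ∈ frontier Ω → curve P u v φ '' Ioo 0 c ⊆ frontier Ω →
    ∃ A : ℝ, 0 < A ∧ ∀ t ∈ Ioo 0 c, Real.exp (-A * t ^ (-q)) ≤ φ t

/-- DY (about 200 lines).  Arc number `i`: the curve on `[a_i, b_i]`, `b_i = c 2^(-i)` (replace `b_0` by exhausting
`[c/2, c)` too: use `[c(1 - 2^(-j-1)), c(1 - 2^(-j-2))]`, or note that the side extends continuously, but `φ''` may be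
unbounded at `c`, which is harmless for a lower bound: one arc `[c/2, c]` is allowed since `IsArc` only asks for
continuity on the closed interval), `a_i = b_i/2`, `κ_i = min 1 (φ''(a_i))`, with `φ''(a_0) > 0`; on `(a_i, b_i)`
`φ'' ≥ φ''(a_i)`.  By SD `φ''(a_i) ≥ 2 φ(a_i)/a_i² ≥ φ(a_i) ≥ exp(-A a_i^(-q))`, `a_i = c 2^(-i-1)`, so
`1 + log(1 + 1/(ℓ_i κ_i)) ≤ C (1 + 2^(iq))` (`ℓ_i = c 2^(-i-1)`) and the series is dominated by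
`∑ C' 2^(-i) 2^(iq/p)`, convergent as `q < p`.  Hypotheses: hSD. -/
def StDY : Prop :=
  ∀ (P u v : Pl) (c q p A : ℝ) (φ : ℝ → ℝ), Side P u v c φ → 0 < q → q < p → 1 < p → 0 < A →
    (∀ t ∈ Ioo 0 c, Real.exp (-A * t ^ (-q)) ≤ φ t) → Cover p (curve P u v φ '' Ioo 0 c)

/-- EX (about 150 lines).  For `t > 0` `φ = exp(-t^(-a))`, `φ' = a t^(-a-1) φ`,
`φ'' = (a² t^(-2a-2) - a(a+1) t^(-a-2)) φ`, `φ''' = φ · (a³ t^(-3a-3) + lower order)`, so `φ'' > 0` and increasing near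
`0`; all tend to `0` at `0+`.  Take `c` small.  Hypotheses: none. -/
def StEX : Prop :=
  ∀ a : ℝ, 0 < a → ∀ ε : ℝ, 0 < ε → ∃ c : ℝ, 0 < c ∧ c < ε ∧ ∀ P u v : Pl, ‖u‖ = 1 → ‖v‖ = 1 →
    ⟪u, v⟫ = 0 → Side P u v c (flatExp a)

/-- THA (about 150 lines).  `frontier Ω` is compact.  For each `y ∈ frontier Ω` there is an open `U ∋ y` with
`Cover p (frontier Ω ∩ U)`: in the case `CurvedAt` by COV; in the case `FlatAt` by CAP and DY (and COV for `{P}` and unions).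
A finite subcover and COV give `Cover p (frontier Ω)`; TC.  Hypotheses: hTC, hCOV, hCAP, hDY. -/
def StTHA : Prop :=
  ∀ (Ω : Set Pl) (p q : ℝ), IsOpen Ω → Convex ℝ Ω → Bornology.IsBounded Ω → (0 : Pl) ∈ Ω →
    (∀ y ∈ frontier Ω, CurvedAt (frontier Ω) y ∨ FlatAt (frontier Ω) y) → 0 < q → q < p → 1 < p →
    ConditionG Ω q → LpBounded Ω p

/-- THB (about 200 lines).  As THA.  At `y ≠ P`: `CurvedAt`.  At `P`: with `c < ε` from EX, `U' = U ∩ ball P c`: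
`frontier Ω ∩ U'` is contained in `{P} ∪ curve P u v φ '' Ioo 0 c ∪ curve P (-u) v φ '' Ioo 0 c` (`φ = flatExp a` is
even and `|t| = |⟪x - P, u⟫| < c`), each covered by DY with `A = 1`, `q = a` (`exp(-t^(-a)) = φ t`).
Hypotheses: hTC, hCOV, hDY, hEX. -/
def StTHB : Prop :=
  ∀ (Ω : Set Pl) (p a ε : ℝ) (P u v : Pl), IsOpen Ω → Convex ℝ Ω → Bornology.IsBounded Ω →
    (0 : Pl) ∈ Ω → ‖u‖ = 1 → ‖v‖ = 1 → ⟪u, v⟫ = 0 → 0 < ε →
    curve P u v (flatExp a) '' Ioo (-ε) ε ⊆ frontier Ω →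
    (∃ U ∈ 𝓝 P, frontier Ω ∩ U ⊆ curve P u v (flatExp a) '' Ioo (-ε) ε) →
    (∀ y ∈ frontier Ω, y ≠ P → CurvedAt (frontier Ω) y) → 0 < a → a < p → 1 < p → LpBounded Ω p

end Pool.Agent.Helper68.LM
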